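import Pool.Agent.H39.MT.CDefs

/-!
# Module A5 (CompEx): existence of a compatible rational form, 5.2 of multi_proof.md
-/

namespace Pool.Agent.MT

open Module Submodule

variable {d : ℕ}

/-- The linear combination map with rational coefficients. -/
noncomputable def clc {ι : Type*} [Fintype ι] (γ : ι → Sp d) : (ι → ℚ) →ₗ[ℚ] Sp d :=
  ∑ i, (LinearMap.proj i : (ι → ℚ) →ₗ[ℚ] ℚ).smulRight (γ i)

lemma clc_apply {ι : Type*} [Fintype ι] (γ : ι → Sp d) (c : ι → ℚ) :
    clc γ c = ∑ i, c i • γ i := by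
  unfold clc
  rw [LinearMap.sum_apply]
  rfl

lemma clc_single {ι : Type*} [Fintype ι] [DecidableEq ι] (γ : ι → Sp d) (i : ι) :
    clc γ (Pi.single i 1) = γ i := by
  rw [clc_apply, Finset.sum_eq_single i]
  · simp
  · intro j _ hj
    rw [Pi.single_eq_of_ne hj, zero_smul]
  · intro h
    exact absurd (Finset.mem_univ i) h

/-- `OneStep` for families indexed by a finite type. -/
lemma OneStep.fintype {VV : Set (Submodule ℝ (Sp d))} {EE : Submodule ℝ (Sp d)}
    {Y : Submodule ℝ (Sp d) → Submodule ℚ (Sp d)} (h : OneStep VV EE Y)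
    {ι : Type*} [Fintype ι] (γ : ι → Sp d) (hγ : ∀ i, γ i ∈ EE) (η : ℝ) (hη : 0 < η) :
    ∃ γ' : ι → Sp d, (∀ i, ‖γ' i - γ i‖ ≤ η) ∧
      ∀ c : ι → ℚ, ∀ V ∈ VV,
        (clc γ c ∈ V → clc γ' c ∈ V) ∧ (clc γ c ∈ rs (Y V) → clc γ' c ∈ Y V) := by
  classical
  let e := Fintype.equivFin ι
  obtain ⟨g, hg1, hg2⟩ := h (Fintype.card ι) (fun k => γ (e.symm k)) (fun k => hγ _) η hη
  refine ⟨fun i => g (e i), ?_, ?_⟩
  · intro i
    have := hg1 (e i)
    rwa [Equiv.symm_apply_apply] at this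
  · intro c V hV
    have h1 := hg2 (fun k => c (e.symm k)) V hV
    have e1 : ∑ k, c (e.symm k) • γ (e.symm k) = clc γ c := by
      rw [clc_apply]
      exact Equiv.sum_comp e.symm (fun i => c i • γ i)
    have e2 : ∑ k, c (e.symm k) • g k = clc (fun i => g (e i)) c := by
      rw [clc_apply, ← Equiv.sum_comp e.symm (fun i => c i • g (e i))]
      simp
    rw [e1, e2] at h1
    exact h1

/-- Subspace of relations. -/
noncomputable def crel {ι : Type*} [Fintype ι] (γ : ι → Sp d) (V : Submodule ℝ (Sp d)) :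
    Submodule ℚ (ι → ℚ) := (rq V).comap (clc γ)

lemma mem_crel {ι : Type*} [Fintype ι] {γ : ι → Sp d} {V : Submodule ℝ (Sp d)} {c : ι → ℚ} :
    c ∈ crel γ V ↔ clc γ c ∈ V := Iff.rfl

lemma finrank_rs_le (L : Submodule ℚ (Sp d)) [Module.Finite ℚ L] :
    finrank ℝ (rs L) ≤ finrank ℚ L := by
  classical
  let b := finBasis ℚ L
  have h1 : (rs L) = span ℝ (Set.range fun i => (b i : Sp d)) := by
    apply le_antisymm
    · apply span_le.2
      intro x hx
      have h2 := b.sum_repr ⟨x, hx⟩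
      have h3 := congrArg (L.subtype) h2
      simp only [map_sum, map_smul, Submodule.subtype_apply] at h3
      rw [SetLike.mem_coe, ← h3]
      apply Submodule.sum_mem
      intro i _
      have h4 : (b.repr ⟨x, hx⟩ i) • (b i : Sp d) = ((b.repr ⟨x, hx⟩ i : ℚ) : ℝ) • (b i : Sp d) :=
        (Rat.cast_smul_eq_qsmul ℝ _ _).symm
      rw [h4]
      exact Submodule.smul_mem _ _ (subset_span ⟨i, rfl⟩)
    · apply span_mono
      rintro x ⟨i, rfl⟩
      exact (b i).2
  rw [h1]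
  have h2 := finrank_range_le_card (R := ℝ) (fun i => (b i : Sp d))
  rwa [Fintype.card_fin] at h2

/-- The rank inequality of one step of the tower. -/
lemma tower_step {S : Finset (Sp d)} {FD : Set (Submodule ℝ (Sp d) × (Sp d → ℝ))}
    {VV : Set (Submodule ℝ (Sp d))} {EE : Submodule ℝ (Sp d)}
    {Y : Submodule ℝ (Sp d) → Submodule ℚ (Sp d)} (hS : Struc S FD VV EE Y)
    {L : Submodule ℚ (Sp d)} (hfin : Module.Finite ℚ L)
    (hcomp : ∀ V ∈ VV, L ⊓ rq (rs (Y V)) ≤ Y V) {V : Submodule ℝ (Sp d)} (hV : V ∈ VV) :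
    finrank ℚ (L ⊓ rq (rs (Y V)) : Submodule ℚ (Sp d)) + finrank ℝ V ≤
      finrank ℚ (L ⊓ rq V : Submodule ℚ (Sp d)) + finrank ℝ (rs (Y V)) := by
  set A : Submodule ℚ (Sp d) := L ⊓ rq (rs (Y V)) with hA
  have hAf : Module.Finite ℚ A := Submodule.finiteDimensional_of_le (inf_le_left : A ≤ L)
  have hYf := hS.fd V hV
  have hform := hS.form V hV
  let π : Sp d →ₗ[ℚ] (Sp d ⧸ V) := V.mkQ.restrictScalars ℚ
  have h1 := LinearMap.finrank_range_add_finrank_ker (π.domRestrict A)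
  have h2 : LinearMap.range (π.domRestrict A) = A.map π := LinearMap.range_domRestrict _ _
  have h30 : A ⊓ LinearMap.ker π = L ⊓ rq V := by
    ext x
    have hk : x ∈ LinearMap.ker π ↔ x ∈ rq V := by
      rw [LinearMap.mem_ker]
      exact Submodule.Quotient.mk_eq_zero V
    rw [Submodule.mem_inf, hk, hA, Submodule.mem_inf, Submodule.mem_inf]
    constructor
    · rintro ⟨⟨h4, _⟩, h6⟩
      exact ⟨h4, h6⟩
    · rintro ⟨h4, h6⟩
      refine ⟨⟨h4, ?_⟩, h6⟩
      exact subset_span (hS.le_Y V hV h6)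
  have h3 : finrank ℚ (LinearMap.ker (π.domRestrict A)) =
      finrank ℚ (L ⊓ rq V : Submodule ℚ (Sp d)) := by
    rw [← h30, ← Submodule.finrank_map_subtype_eq, LinearMap.ker_domRestrict,
      Submodule.map_comap_subtype]
  have h4 : finrank ℚ (A.map π) ≤ finrank ℚ ((Y V).map (V.mkQ.restrictScalars ℚ)) :=
    Submodule.finrank_mono (Submodule.map_mono (hcomp V hV))
  rw [h2, h3] at h1
  omega

theorem comp_exists {S : Finset (Sp d)} {FD : Set (Submodule ℝ (Sp d) × (Sp d → ℝ))}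
    {VV : Set (Submodule ℝ (Sp d))} {EE : Submodule ℝ (Sp d)}
    {Y : Submodule ℝ (Sp d) → Submodule ℚ (Sp d)} (hS : Struc S FD VV EE Y)
    (h : OneStep VV EE Y) : ∃ L : Submodule ℚ (Sp d), Comp VV EE Y L := by
  classical
  have : Fintype VV := hS.fin.fintype
  let ι := Σ V : VV, Fin (finrank ℝ (V : Submodule ℝ (Sp d)))
  let Good : (ι → Sp d) → Prop := fun γ =>
    (∀ i, γ i ∈ (i.1 : Submodule ℝ (Sp d))) ∧
      ∀ V : VV, LinearIndependent ℝ (fun k => γ ⟨V, k⟩)
  let f : (ι → Sp d) → ℕ := fun γ => ∑ V : VV, finrank ℚ (crel γ (V : Submodule ℝ (Sp d)))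
  let B : ℕ := ∑ _V : VV, finrank ℚ (ι → ℚ)
  have hfB : ∀ γ, f γ ≤ B := fun γ => Finset.sum_le_sum fun V _ => Submodule.finrank_le _
  have hex : ∃ n, ∃ γ, Good γ ∧ B - f γ = n := by
    let b : ∀ V : VV, Basis (Fin (finrank ℝ (V : Submodule ℝ (Sp d)))) ℝ
      (V : Submodule ℝ (Sp d)) := fun V => finBasis ℝ _
    refine ⟨_, fun i => (b i.1 i.2 : Sp d), ⟨fun i => (b i.1 i.2).2, fun V => ?_⟩, rfl⟩
    exact (b V).linearIndependent.map' (V : Submodule ℝ (Sp d)).subtype
      (Submodule.ker_subtype _)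
  obtain ⟨γ, hγ, hγn⟩ := Nat.find_spec hex
  have hmax : ∀ γ', Good γ' → f γ' ≤ f γ := by
    intro γ' h'
    have := Nat.find_min' hex ⟨γ', h', rfl⟩
    have h1 := hfB γ
    have h2 := hfB γ'
    omega
  -- the open condition
  have hopen : IsOpen {γ' : ι → Sp d | ∀ V : VV, LinearIndependent ℝ (fun k => γ' ⟨V, k⟩)} := by
    rw [Set.ofPred_forall]
    apply isOpen_iInter_of_finite
    intro V
    have hc : Continuous fun (g : ι → Sp d) (k : Fin (finrank ℝ (V : Submodule ℝ (Sp d)))) =>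
        g ⟨V, k⟩ := continuous_pi fun k => continuous_apply (⟨V, k⟩ : ι)
    exact (isOpen_setOfPred_linearIndependent (𝕜 := ℝ) (E := Sp d)
      (ι := Fin (finrank ℝ (V : Submodule ℝ (Sp d))))).preimage hc
  obtain ⟨ε, hε, hball⟩ := Metric.isOpen_iff.1 hopen γ hγ.2
  obtain ⟨γ', hn, hrel⟩ := h.fintype γ (fun i => hS.le_top _ i.1.2 (hγ.1 i)) (ε / 2) (by linarith)
  have hγ' : Good γ' := by
    constructor
    · intro i
      have h1 := (hrel (Pi.single i 1) i.1 i.1.2).1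
      rw [clc_single, clc_single] at h1
      exact h1 (hγ.1 i)
    · apply hball
      rw [Metric.mem_ball]
      refine lt_of_le_of_lt ((dist_pi_le_iff (by linarith)).2 fun i => ?_) (half_lt_self hε)
      rw [dist_eq_norm]
      exact hn i
  have hle : ∀ V : VV, crel γ (V : Submodule ℝ (Sp d)) ≤ crel γ' V := fun V c hc =>
    (hrel c V V.2).1 hc
  have heq : ∀ V : VV, crel γ (V : Submodule ℝ (Sp d)) = crel γ' V := by
    have h1 : ∀ V : VV, finrank ℚ (crel γ (V : Submodule ℝ (Sp d))) ≤ finrank ℚ (crel γ' V) :=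
      fun V => Submodule.finrank_mono (hle V)
    have h2 : f γ = f γ' := le_antisymm (Finset.sum_le_sum fun V _ => h1 V) (hmax γ' hγ')
    have h3 := (Finset.sum_eq_sum_iff_of_le (fun V _ => h1 V)).1 h2
    intro V
    exact Submodule.eq_of_le_of_finrank_eq (hle V) (h3 V (Finset.mem_univ V))
  set L : Submodule ℚ (Sp d) := LinearMap.range (clc γ') with hL
  have hγL : ∀ i, γ' i ∈ L := fun i => ⟨Pi.single i 1, clc_single γ' i⟩
  have hLE : L ≤ rq EE := by
    rintro x ⟨c, rfl⟩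
    rw [clc_apply]
    apply Submodule.sum_mem
    intro i _
    exact Submodule.smul_mem _ _ (hS.le_top _ i.1.2 (hγ'.1 i))
  have hfin : Module.Finite ℚ L := by
    rw [hL]
    infer_instance
  have hspan : ∀ V ∈ VV, rs (L ⊓ rq V) = V := by
    intro V hV
    apply le_antisymm
    · apply span_le.2
      intro x hx
      exact hx.2
    · have h1 : span ℝ (Set.range fun k => γ' ⟨⟨V, hV⟩, k⟩) ≤ V := by
        apply span_le.2
        rintro x ⟨k, rfl⟩
        exact hγ'.1 ⟨⟨V, hV⟩, k⟩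
      have h2 : span ℝ (Set.range fun k => γ' ⟨⟨V, hV⟩, k⟩) = V := by
        apply Submodule.eq_of_le_of_finrank_eq h1
        rw [finrank_span_eq_card (hγ'.2 ⟨V, hV⟩), Fintype.card_fin]
      conv_lhs => rw [← h2]
      apply span_mono
      rintro x ⟨k, rfl⟩
      exact ⟨hγL _, hγ'.1 ⟨⟨V, hV⟩, k⟩⟩
  have hcomp : ∀ V ∈ VV, L ⊓ rq (rs (Y V)) ≤ Y V := by
    intro V hV x hx
    obtain ⟨⟨c, rfl⟩, hx2⟩ := hx
    apply (hrel c V hV).2
    have h1 : c ∈ crel γ' (rs (Y V)) := hx2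
    rw [← heq ⟨rs (Y V), hS.pl_mem V hV⟩] at h1
    exact h1
  refine ⟨L, hLE, hfin, ?_, hspan, hcomp⟩
  apply le_antisymm
  · -- the tower
    have hG : ∃ n, ∃ V ∈ VV, finrank ℚ (L ⊓ rq V : Submodule ℚ (Sp d)) ≤ finrank ℝ V ∧
        d - finrank ℝ V = n := by
      refine ⟨_, ⊥, hS.bot_mem, ?_, rfl⟩
      have h1 : (L ⊓ rq (⊥ : Submodule ℝ (Sp d)) : Submodule ℚ (Sp d)) = ⊥ := by
        rw [eq_bot_iff]
        intro x hx
        exact hx.2
      rw [h1, finrank_bot, finrank_bot]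
    obtain ⟨V, hV, hV1, hV2⟩ := Nat.find_spec hG
    by_cases hVE : V = EE
    · have h1 : L ⊓ rq EE = L := inf_eq_left.2 hLE
      rw [hVE, h1] at hV1
      exact hV1
    · exfalso
      have h1 := tower_step hS hfin hcomp hV
      have h2 : V ≤ rs (Y V) := fun x hx => subset_span (hS.le_Y V hV hx)
      have h3 : finrank ℝ V < finrank ℝ (rs (Y V)) :=
        Submodule.finrank_lt_finrank_of_lt (lt_of_le_of_ne h2 (hS.lt V hV hVE))
      have h4 := Nat.find_min' hG ⟨rs (Y V), hS.pl_mem V hV, by omega, rfl⟩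
      have h5 : finrank ℝ (rs (Y V)) ≤ d := by
        have := Submodule.finrank_le (rs (Y V))
        rwa [finrank_fin_fun] at this
      omega
  · have h1 := hspan EE hS.top_mem
    rw [inf_eq_left.2 hLE] at h1
    have h2 := finrank_rs_le L
    rw [h1] at h2
    exact h2

end Pool.Agent.MT
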